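import Mathlib

/-!
Lower bound for First-Fit on interval graphs, part 1: families of intervals with class numbers
(top-down walls), the realisation of units, and the recursion which produces walls.
-/

namespace Pool.Agent.Helper27.FFLow

open Finset

/-- A classed interval `(s, l, r)`: the closed interval `[l, r]`, placed in class `s`. -/
abbrev CI := ℕ × ℝ × ℝ

/-- number of members of `F` covering `z` -/
noncomputable def load (F : Finset CI) (z : ℝ) : ℕ :=
  (F.filter fun J => J.2.1 ≤ z ∧ z ≤ J.2.2).card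

/-- `F` is a family of intervals in the open interval `(x, y)`, with classes `> t`, disjoint in
each class, and every member touches every later class up to `T`. -/
structure Fam (F : Finset CI) (t T : ℕ) (x y : ℝ) : Prop where
  cls : ∀ J ∈ F, t < J.1
  lo : ∀ J ∈ F, x < J.2.1
  le : ∀ J ∈ F, J.2.1 ≤ J.2.2
  hi : ∀ J ∈ F, J.2.2 < y
  disj : ∀ J ∈ F, ∀ J' ∈ F, J ≠ J' → J.1 = J'.1 → J.2.2 < J'.2.1 ∨ J'.2.2 < J.2.1
  supp : ∀ J ∈ F, ∀ s, J.1 < s → s ≤ T → ∃ J' ∈ F, J'.1 = s ∧ J'.2.1 ≤ J.2.2 ∧ J.2.1 ≤ J'.2.2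

lemma Fam.mono {F : Finset CI} {t t' T : ℕ} {x x' y y' : ℝ} (h : Fam F t T x y) (ht : t' ≤ t)
    (hx : x' ≤ x) (hy : y ≤ y') : Fam F t' T x' y' :=
  ⟨fun J hJ => ht.trans_lt (h.cls J hJ), fun J hJ => hx.trans_lt (h.lo J hJ), h.le,
    fun J hJ => (h.hi J hJ).trans_le hy, h.disj, h.supp⟩

lemma Fam.empty (t T : ℕ) (x y : ℝ) : Fam ∅ t T x y :=
  ⟨by simp, by simp, by simp, by simp, by simp, by simp⟩

lemma Fam.union {F G : Finset CI} {t T : ℕ} {x y z w : ℝ} (hF : Fam F t T x y)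
    (hG : Fam G t T z w) (hyz : y ≤ z) (hxz : x ≤ z) (hyw : y ≤ w) : Fam (F ∪ G) t T x w := by
  refine ⟨?_, ?_, ?_, ?_, ?_, ?_⟩
  · intro J hJ
    rcases mem_union.1 hJ with h | h
    · exact hF.cls J h
    · exact hG.cls J h
  · intro J hJ
    rcases mem_union.1 hJ with h | h
    · exact hF.lo J h
    · exact hxz.trans_lt (hG.lo J h)
  · intro J hJ
    rcases mem_union.1 hJ with h | h
    · exact hF.le J h
    · exact hG.le J h
  · intro J hJ
    rcases mem_union.1 hJ with h | h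
    · exact (hF.hi J h).trans_le hyw
    · exact hG.hi J h
  · intro J hJ J' hJ' hne hc
    rcases mem_union.1 hJ with h | h <;> rcases mem_union.1 hJ' with h' | h'
    · exact hF.disj J h J' h' hne hc
    · left
      have h1 := hF.hi J h
      have h2 := hG.lo J' h'
      linarith
    · right
      have h1 := hF.hi J' h'
      have h2 := hG.lo J h
      linarith
    · exact hG.disj J h J' h' hne hc
  · intro J hJ s hs hsT
    rcases mem_union.1 hJ with h | h
    · obtain ⟨J', h1, h2⟩ := hF.supp J h s hs hsT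
      exact ⟨J', mem_union_left _ h1, h2⟩
    · obtain ⟨J', h1, h2⟩ := hG.supp J h s hs hsT
      exact ⟨J', mem_union_right _ h1, h2⟩

lemma load_union_le (F G : Finset CI) (z : ℝ) : load (F ∪ G) z ≤ load F z + load G z := by
  unfold load
  rw [filter_union]
  exact card_union_le _ _

lemma Fam.load_left {F : Finset CI} {t T : ℕ} {x y z : ℝ} (h : Fam F t T x y) (hz : z ≤ x) :
    load F z = 0 := by
  unfold load
  rw [card_eq_zero, filter_eq_empty_iff]
  rintro J hJ ⟨h1, _⟩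
  have := h.lo J hJ
  linarith

lemma Fam.load_right {F : Finset CI} {t T : ℕ} {x y z : ℝ} (h : Fam F t T x y) (hz : y ≤ z) :
    load F z = 0 := by
  unfold load
  rw [card_eq_zero, filter_eq_empty_iff]
  rintro J hJ ⟨_, h1⟩
  have := h.hi J hJ
  linarith

/-- `a` copies of `[l, r]`, in the classes `t + 1, …, t + a` -/
noncomputable def cop (t a : ℕ) (l r : ℝ) : Finset CI := (Ioc t (t + a)).image fun s => (s, l, r)

lemma mem_cop {t a : ℕ} {l r : ℝ} {J : CI} :
    J ∈ cop t a l r ↔ (t < J.1 ∧ J.1 ≤ t + a) ∧ J.2.1 = l ∧ J.2.2 = r := by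
  unfold cop
  simp only [mem_image, mem_Ioc]
  constructor
  · rintro ⟨s, hs, rfl⟩
    exact ⟨hs, rfl, rfl⟩
  · rintro ⟨hs, h1, h2⟩
    exact ⟨J.1, hs, by rw [← h1, ← h2]⟩

lemma load_cop_le (t a : ℕ) (l r z : ℝ) : load (cop t a l r) z ≤ a := by
  unfold load
  refine (card_filter_le _ _).trans ?_
  unfold cop
  refine card_image_le.trans ?_
  simp

lemma load_cop_out {t a : ℕ} {l r z : ℝ} (h : z < l ∨ r < z) : load (cop t a l r) z = 0 := by
  unfold load
  rw [card_eq_zero, filter_eq_empty_iff]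
  rintro J hJ ⟨h1, h2⟩
  obtain ⟨_, h3, h4⟩ := mem_cop.1 hJ
  rcases h with h | h <;> linarith

/-- copies of an interval followed by a family which serves it -/
lemma group {t a T : ℕ} {x y l r : ℝ} {F : Finset CI} (hF : Fam F (t + a) T x y) (hx : x < l)
    (hlr : l ≤ r) (hy : r < y)
    (htouch : ∀ s, t + a < s → s ≤ T → ∃ J ∈ F, J.1 = s ∧ J.2.1 ≤ r ∧ l ≤ J.2.2) :
    Fam (cop t a l r ∪ F) t T x y := by
  refine ⟨?_, ?_, ?_, ?_, ?_, ?_⟩
  · intro J hJ
    rcases mem_union.1 hJ with h | h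
    · exact (mem_cop.1 h).1.1
    · have := hF.cls J h
      omega
  · intro J hJ
    rcases mem_union.1 hJ with h | h
    · rw [(mem_cop.1 h).2.1]; exact hx
    · exact hF.lo J h
  · intro J hJ
    rcases mem_union.1 hJ with h | h
    · rw [(mem_cop.1 h).2.1, (mem_cop.1 h).2.2]; exact hlr
    · exact hF.le J h
  · intro J hJ
    rcases mem_union.1 hJ with h | h
    · rw [(mem_cop.1 h).2.2]; exact hy
    · exact hF.hi J h
  · intro J hJ J' hJ' hne hc
    rcases mem_union.1 hJ with h | h <;> rcases mem_union.1 hJ' with h' | h'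
    · exfalso
      apply hne
      obtain ⟨_, h1, h2⟩ := mem_cop.1 h
      obtain ⟨_, h3, h4⟩ := mem_cop.1 h'
      exact Prod.ext hc (Prod.ext (h1.trans h3.symm) (h2.trans h4.symm))
    · exfalso
      have h1 := (mem_cop.1 h).1.2
      have h2 := hF.cls J' h'
      omega
    · exfalso
      have h1 := (mem_cop.1 h').1.2
      have h2 := hF.cls J h
      omega
    · exact hF.disj J h J' h' hne hc
  · intro J hJ s hs hsT
    rcases mem_union.1 hJ with h | h
    · obtain ⟨⟨h0, _⟩, h1, h2⟩ := mem_cop.1 h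
      rw [h1, h2]
      by_cases hsa : s ≤ t + a
      · refine ⟨(s, l, r), mem_union_left _ (mem_cop.2 ⟨⟨by omega, hsa⟩, rfl, rfl⟩), rfl, hlr, hlr⟩
      · obtain ⟨J', h3, h4⟩ := htouch s (by omega) hsT
        exact ⟨J', mem_union_right _ h3, h4⟩
    · obtain ⟨J', h1, h2⟩ := hF.supp J h s hs hsT
      exact ⟨J', mem_union_right _ h1, h2⟩

/-- The unit with `t` classes used, left valley of load `p`, own load `u`, right valley of load
`q` can be continued to `T` classes with total load at most `k` (the additional load on the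
barriers being at most `B`). -/
def Rz (t p u q k T B : ℕ) : Prop :=
  ∀ x₁ x₂ l x₃ x₄ r x₅ x₆ : ℝ, x₁ < x₂ → x₂ ≤ l → l ≤ x₃ → x₃ < x₄ → x₄ ≤ r → r ≤ x₅ → x₅ < x₆ →
    ∃ F : Finset CI, Fam F t T x₁ x₆ ∧
      (∀ s, t < s → s ≤ T → ∃ J ∈ F, J.1 = s ∧ J.2.1 ≤ r ∧ l ≤ J.2.2) ∧
      ∀ z, load F z ≤ B ∨ (x₁ < z ∧ z < x₂ ∧ load F z + p ≤ k) ∨
        (x₃ < z ∧ z < x₄ ∧ load F z + u ≤ k) ∨ (x₅ < z ∧ z < x₆ ∧ load F z + q ≤ k)

/-- a wall of load `≤ k` with classes `t + 1, …, T` in every open interval -/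
def WallAt (k t T : ℕ) : Prop :=
  ∀ x y : ℝ, x < y → ∃ F : Finset CI, Fam F t T x y ∧
    (∀ s, t < s → s ≤ T → ∃ J ∈ F, J.1 = s) ∧ ∀ z, load F z ≤ k

/-- availability of the retirement gadgets -/
def Gad (R : ℚ) (k T : ℕ) : Prop :=
  ∀ t u : ℕ, 1 ≤ u → R * u ≤ t → u ≤ k → WallAt (k - u) t T

/-- the unit is winnable -/
def P (R : ℚ) (t p u q : ℕ) : Prop :=
  ∃ B, ∀ k T, B ≤ k → Gad R k T → Rz t p u q k T B

/-! ### Mirror images -/

noncomputable def mir (F : Finset CI) : Finset CI := F.image fun J => (J.1, -J.2.2, -J.2.1)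

lemma mem_mir {F : Finset CI} {J : CI} : J ∈ mir F ↔ (J.1, -J.2.2, -J.2.1) ∈ F := by
  unfold mir
  simp only [mem_image]
  constructor
  · rintro ⟨J', h, rfl⟩
    simpa using h
  · intro h
    exact ⟨_, h, by simp⟩

lemma load_mir (F : Finset CI) (z : ℝ) : load (mir F) z = load F (-z) := by
  unfold load
  refine card_bij' (fun J _ => (J.1, -J.2.2, -J.2.1)) (fun J _ => (J.1, -J.2.2, -J.2.1))
    ?_ ?_ ?_ ?_
  · intro J hJ
    rw [mem_filter, mem_mir] at hJ
    rw [mem_filter]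
    exact ⟨hJ.1, by simpa using hJ.2.2, by simpa using hJ.2.1⟩
  · intro J hJ
    rw [mem_filter] at hJ
    rw [mem_filter, mem_mir]
    refine ⟨by simpa using hJ.1, ?_, ?_⟩
    · have := hJ.2.2
      simp only
      linarith
    · have := hJ.2.1
      simp only
      linarith
  · intro J _
    simp
  · intro J _
    simp

lemma Fam.mir {F : Finset CI} {t T : ℕ} {x y : ℝ} (h : Fam F t T x y) :
    Fam (mir F) t T (-y) (-x) := by
  refine ⟨?_, ?_, ?_, ?_, ?_, ?_⟩
  · intro J hJ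
    have := h.cls _ (mem_mir.1 hJ)
    exact this
  · intro J hJ
    have := h.hi _ (mem_mir.1 hJ)
    simp only at this
    linarith
  · intro J hJ
    have := h.le _ (mem_mir.1 hJ)
    simp only at this
    linarith
  · intro J hJ
    have := h.lo _ (mem_mir.1 hJ)
    simp only at this
    linarith
  · intro J hJ J' hJ' hne hc
    have := h.disj _ (mem_mir.1 hJ) _ (mem_mir.1 hJ') (by
      intro he
      apply hne
      simp only [Prod.mk.injEq, neg_inj] at he
      exact Prod.ext he.1 (Prod.ext he.2.2 he.2.1)) hc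
    simp only at this
    rcases this with h | h
    · right; linarith
    · left; linarith
  · intro J hJ s hs hsT
    obtain ⟨J', h1, h2, h3, h4⟩ := h.supp _ (mem_mir.1 hJ) s hs hsT
    refine ⟨(J'.1, -J'.2.2, -J'.2.1), mem_mir.2 (by simpa using h1), h2, ?_, ?_⟩
    · simp only at h4 ⊢
      linarith
    · simp only at h3 ⊢
      linarith

lemma Rz.mirror {t p u q k T B : ℕ} (h : Rz t p u q k T B) : Rz t q u p k T B := by
  intro x₁ x₂ l x₃ x₄ r x₅ x₆ h1 h2 h3 h4 h5 h6 h7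
  obtain ⟨F, hF, ht, hl⟩ := h (-x₆) (-x₅) (-r) (-x₄) (-x₃) (-l) (-x₂) (-x₁) (by linarith)
    (by linarith) (by linarith) (by linarith) (by linarith) (by linarith) (by linarith)
  refine ⟨mir F, by simpa using hF.mir, ?_, ?_⟩
  · intro s hs hsT
    obtain ⟨J, h1, h2, h3, h4⟩ := ht s hs hsT
    refine ⟨(J.1, -J.2.2, -J.2.1), mem_mir.2 (by simpa using h1), h2, ?_, ?_⟩
    · simp only; linarith
    · simp only; linarith
  · intro z
    rw [load_mir]
    rcases hl (-z) with h | ⟨h, h', h''⟩ | ⟨h, h', h''⟩ | ⟨h, h', h''⟩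
    · exact Or.inl h
    · exact Or.inr (Or.inr (Or.inr ⟨by linarith, by linarith, h''⟩))
    · exact Or.inr (Or.inr (Or.inl ⟨by linarith, by linarith, h''⟩))
    · exact Or.inr (Or.inl ⟨by linarith, by linarith, h''⟩)

lemma Rz.mono {t p u q k T B B' : ℕ} (h : Rz t p u q k T B) (hB : B ≤ B') :
    Rz t p u q k T B' := by
  intro x₁ x₂ l x₃ x₄ r x₅ x₆ h1 h2 h3 h4 h5 h6 h7
  obtain ⟨F, hF, ht, hl⟩ := h x₁ x₂ l x₃ x₄ r x₅ x₆ h1 h2 h3 h4 h5 h6 h7
  refine ⟨F, hF, ht, fun z => ?_⟩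
  rcases hl z with h | h
  · exact Or.inl (h.trans hB)
  · exact Or.inr h

lemma Rz.trunc {t p u q k T B : ℕ} (h : Rz t p u u k T B) : Rz t p u q k T B := by
  intro x₁ x₂ l x₃ x₄ r x₅ x₆ h1 h2 h3 h4 h5 h6 h7
  obtain ⟨m, hm1, hm2⟩ := exists_between h4
  obtain ⟨F, hF, ht, hl⟩ := h x₁ x₂ l x₃ m m m x₄ h1 h2 h3 hm1 le_rfl le_rfl hm2
  refine ⟨F, hF.mono le_rfl le_rfl (by linarith), ?_, fun z => ?_⟩
  · intro s hs hsT
    obtain ⟨J, a1, a2, a3, a4⟩ := ht s hs hsT
    exact ⟨J, a1, a2, by linarith, a4⟩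
  · rcases hl z with h | ⟨h, h', h''⟩ | ⟨h, h', h''⟩ | ⟨h, h', h''⟩
    · exact Or.inl h
    · exact Or.inr (Or.inl ⟨h, h', h''⟩)
    · exact Or.inr (Or.inr (Or.inl ⟨h, by linarith, h''⟩))
    · exact Or.inr (Or.inr (Or.inl ⟨by linarith, h', h''⟩))

/-- the left server and everything that serves it -/
lemma leftGroup {t a p u k T B : ℕ} (h : 0 < a → Rz (t + a) p (p + a) u k T B)
    {x₁ x₂ l x₃ y : ℝ} (h12 : x₁ < x₂) (h2l : x₂ ≤ l) (hl3 : l ≤ x₃) (h3y : x₃ < y) :
    ∃ F : Finset CI, Fam F t T x₁ y ∧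
      (∀ s, t < s → s ≤ t + a → s ≤ T → ∃ J ∈ F, J.1 = s ∧ J.2.1 ≤ l ∧ l ≤ J.2.2) ∧
      ∀ z, load F z ≤ a + B ∨ (x₁ < z ∧ z < x₂ ∧ load F z + p ≤ k) ∨
        (x₃ < z ∧ z < y ∧ load F z + u ≤ k) := by
  rcases Nat.eq_zero_or_pos a with ha | ha
  · subst ha
    refine ⟨∅, Fam.empty _ _ _ _, fun s h1 h2 _ => by omega, fun z => Or.inl (by simp [load])⟩
  · obtain ⟨kl, hk1, hk2⟩ := exists_between h12
    obtain ⟨kr, hk3, hk4⟩ := exists_between h3y
    obtain ⟨F, hF, ht, hl⟩ := h ha x₁ kl kl kl x₂ kr kr y hk1 le_rfl le_rfl hk2 (by linarith)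
      le_rfl hk4
    refine ⟨cop t a kl kr ∪ F, group hF hk1 (by linarith) hk4 ht, ?_, fun z => ?_⟩
    · intro s h1 h2 _
      exact ⟨(s, kl, kr), mem_union_left _ (mem_cop.2 ⟨⟨h1, h2⟩, rfl, rfl⟩), rfl,
        by simp only; linarith, by simp only; linarith⟩
    · have hun := load_union_le (cop t a kl kr) F z
      have hc := load_cop_le t a kl kr z
      rcases hl z with h | ⟨h, h', h''⟩ | ⟨h, h', h''⟩ | ⟨h, h', h''⟩
      · exact Or.inl (by omega)
      · have := load_cop_out (t := t) (a := a) (l := kl) (r := kr) (z := z) (Or.inl h')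
        exact Or.inr (Or.inl ⟨h, by linarith, by omega⟩)
      · exact Or.inr (Or.inl ⟨by linarith, h', by omega⟩)
      · have := load_cop_out (t := t) (a := a) (l := kl) (r := kr) (z := z) (Or.inr h)
        exact Or.inr (Or.inr ⟨by linarith, h', by omega⟩)

lemma rightGroup {t b q u k T B : ℕ} (h : 0 < b → Rz (t + b) u (q + b) q k T B)
    {x₄ r x₅ x₆ y : ℝ} (hy4 : y < x₄) (h4r : x₄ ≤ r) (hr5 : r ≤ x₅) (h56 : x₅ < x₆) :
    ∃ F : Finset CI, Fam F t T y x₆ ∧
      (∀ s, t < s → s ≤ t + b → s ≤ T → ∃ J ∈ F, J.1 = s ∧ J.2.1 ≤ r ∧ r ≤ J.2.2) ∧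
      ∀ z, load F z ≤ b + B ∨ (y < z ∧ z < x₄ ∧ load F z + u ≤ k) ∨
        (x₅ < z ∧ z < x₆ ∧ load F z + q ≤ k) := by
  obtain ⟨F, hF, ht, hl⟩ := leftGroup (t := t) (a := b) (p := q) (u := u) (k := k) (T := T) (B := B)
    (fun hb => (h hb).mirror) (x₁ := -x₆) (x₂ := -x₅) (l := -r) (x₃ := -x₄) (y := -y)
    (by linarith) (by linarith) (by linarith) (by linarith)
  refine ⟨mir F, by simpa using hF.mir, ?_, ?_⟩
  · intro s hs hs' hsT
    obtain ⟨J, h1, h2, h3, h4⟩ := ht s hs hs' hsT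
    refine ⟨(J.1, -J.2.2, -J.2.1), mem_mir.2 (by simpa using h1), h2, ?_, ?_⟩
    · simp only; linarith
    · simp only; linarith
  · intro z
    rw [load_mir]
    rcases hl (-z) with h | ⟨h, h', h''⟩ | ⟨h, h', h''⟩
    · exact Or.inl h
    · exact Or.inr (Or.inr ⟨by linarith, by linarith, h''⟩)
    · exact Or.inr (Or.inl ⟨by linarith, by linarith, h''⟩)

lemma P.mirror {R : ℚ} {t p u q : ℕ} (h : P R t p u q) : P R t q u p := by
  obtain ⟨B, hB⟩ := h
  exact ⟨B, fun k T hk hG => (hB k T hk hG).mirror⟩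

lemma P.trunc {R : ℚ} {t p u q : ℕ} (h : P R t p u u) : P R t p u q := by
  obtain ⟨B, hB⟩ := h
  exact ⟨B, fun k T hk hG => (hB k T hk hG).trunc⟩

/-- Serve the unit from the left for `a` steps, then from the right for `b` steps, then retire. -/
lemma P.step {R : ℚ} {t p u q : ℕ} (a b : ℕ) (hu : 1 ≤ u) (hR : R * u ≤ (t + a + b : ℕ))
    (hK : 0 < a → P R (t + a) p (p + a) u) (hM : 0 < b → P R (t + a + b) u (q + b) q) :
    P R t p u q := by
  have hK' : ∃ B, ∀ k T, B ≤ k → Gad R k T → 0 < a → Rz (t + a) p (p + a) u k T B := by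
    rcases Nat.eq_zero_or_pos a with h | h
    · exact ⟨0, fun _ _ _ _ h' => by omega⟩
    · obtain ⟨B, hB⟩ := hK h
      exact ⟨B, fun k T h1 h2 _ => hB k T h1 h2⟩
  have hM' : ∃ B, ∀ k T, B ≤ k → Gad R k T → 0 < b → Rz (t + a + b) u (q + b) q k T B := by
    rcases Nat.eq_zero_or_pos b with h | h
    · exact ⟨0, fun _ _ _ _ h' => by omega⟩
    · obtain ⟨B, hB⟩ := hM h
      exact ⟨B, fun k T h1 h2 _ => hB k T h1 h2⟩
  obtain ⟨B₁, hB₁⟩ := hK'
  obtain ⟨B₂, hB₂⟩ := hM'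
  refine ⟨a + B₁ + (b + B₂) + u, fun k T hk hG => ?_⟩
  intro x₁ x₂ l x₃ x₄ r x₅ x₆ h1 h2 h3 h4 h5 h6 h7
  obtain ⟨y₁, hy1, hy1'⟩ := exists_between h4
  obtain ⟨y₂, hy2, hy2'⟩ := exists_between hy1'
  obtain ⟨F₁, hF₁, ht₁, hl₁⟩ := leftGroup (hB₁ k T (by omega) hG) h1 h2 h3 hy1
  obtain ⟨F₂, hF₂, ht₂, hl₂⟩ := rightGroup (hB₂ k T (by omega) hG) hy2' h5 h6 h7
  obtain ⟨G, hFG, htG, hlG⟩ := hG (t + a + b) u hu hR (by omega) y₁ y₂ hy2
  have hFG' : Fam G t T y₁ y₂ := hFG.mono (by omega) le_rfl le_rfl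
  have hF₂' : Fam F₂ t T y₂ x₆ := hF₂.mono (by omega) le_rfl le_rfl
  have hU := (hF₁.union hFG' le_rfl (by linarith) (by linarith)).union hF₂' le_rfl
    (by linarith) (by linarith)
  refine ⟨F₁ ∪ G ∪ F₂, hU, ?_, fun z => ?_⟩
  · intro s hs hsT
    by_cases hsa : s ≤ t + a
    · obtain ⟨J, hJ, c1, c2, c3⟩ := ht₁ s hs hsa hsT
      exact ⟨J, mem_union_left _ (mem_union_left _ hJ), c1, by linarith, c3⟩
    by_cases hsb : s ≤ t + a + b
    · obtain ⟨J, hJ, c1, c2, c3⟩ := ht₂ s (by omega) hsb hsT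
      exact ⟨J, mem_union_right _ hJ, c1, c2, by linarith⟩
    · obtain ⟨J, hJ, c1⟩ := htG s (by omega) hsT
      have c2 := hFG.lo J hJ
      have c3 := hFG.hi J hJ
      have c4 := hFG.le J hJ
      exact ⟨J, mem_union_left _ (mem_union_right _ hJ), c1, by linarith, by linarith⟩
  · have hun := load_union_le (F₁ ∪ G) F₂ z
    have hun' := load_union_le F₁ G z
    rcases le_or_gt z y₁ with hz1 | hz1
    · have e1 := hFG.load_left hz1
      have e2 := hF₂.load_left (z := z) (by linarith)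
      rcases hl₁ z with h | ⟨h, h', h''⟩ | ⟨h, h', h''⟩
      · exact Or.inl (by omega)
      · exact Or.inr (Or.inl ⟨h, h', by omega⟩)
      · exact Or.inr (Or.inr (Or.inl ⟨h, by linarith, by omega⟩))
    · have e1 := hF₁.load_right hz1.le
      rcases lt_or_ge z y₂ with hz2 | hz2
      · have e2 := hF₂.load_left (z := z) (by linarith)
        have e3 := hlG z
        exact Or.inr (Or.inr (Or.inl ⟨by linarith, by linarith, by omega⟩))
      · have e2 := hFG.load_right hz2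
        rcases hl₂ z with h | ⟨h, h', h''⟩ | ⟨h, h', h''⟩
        · exact Or.inl (by omega)
        · exact Or.inr (Or.inr (Or.inl ⟨by linarith, h', by omega⟩))
        · exact Or.inr (Or.inr (Or.inr ⟨h, h', by omega⟩))

/-! ### Walls -/

lemma WallAt.triv {k t T : ℕ} (h : T ≤ t) : WallAt k t T := by
  intro x y _
  exact ⟨∅, Fam.empty _ _ _ _, fun s h1 h2 => by omega, fun z => by simp [load]⟩

/-- shift of the class numbers -/
lemma WallAt.shift {k t T : ℕ} (h : WallAt k 0 (T - t)) : WallAt k t T := by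
  rcases le_or_gt T t with hT | hT
  · exact WallAt.triv hT
  intro x y hxy
  obtain ⟨F, hF, ht, hl⟩ := h x y hxy
  have hinj : Function.Injective (fun J : CI => ((t + J.1, J.2) : CI)) := by
    intro J J' hJ
    simp only [Prod.mk.injEq, Nat.add_left_cancel_iff] at hJ
    exact Prod.ext hJ.1 hJ.2
  refine ⟨F.image fun J => (t + J.1, J.2), ⟨?_, ?_, ?_, ?_, ?_, ?_⟩, ?_, fun z => ?_⟩
  · intro J hJ
    obtain ⟨J', h1, rfl⟩ := mem_image.1 hJ
    have := hF.cls J' h1
    simp only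
    omega
  · intro J hJ
    obtain ⟨J', h1, rfl⟩ := mem_image.1 hJ
    exact hF.lo J' h1
  · intro J hJ
    obtain ⟨J', h1, rfl⟩ := mem_image.1 hJ
    exact hF.le J' h1
  · intro J hJ
    obtain ⟨J', h1, rfl⟩ := mem_image.1 hJ
    exact hF.hi J' h1
  · intro J hJ K hK hne hc
    obtain ⟨J', h1, rfl⟩ := mem_image.1 hJ
    obtain ⟨K', h2, rfl⟩ := mem_image.1 hK
    refine hF.disj J' h1 K' h2 (fun he => hne (by rw [he])) ?_
    simp only at hc
    omega
  · intro J hJ s hs hsT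
    obtain ⟨J', h1, rfl⟩ := mem_image.1 hJ
    simp only at hs
    obtain ⟨K, h2, h3, h4⟩ := hF.supp J' h1 (s - t) (by omega) (by omega)
    refine ⟨(t + K.1, K.2), mem_image.2 ⟨K, h2, rfl⟩, ?_, h4⟩
    simp only
    omega
  · intro s hs hsT
    obtain ⟨K, h2, h3⟩ := ht (s - t) (by omega) (by omega)
    refine ⟨(t + K.1, K.2), mem_image.2 ⟨K, h2, rfl⟩, ?_⟩
    simp only
    omega
  · refine le_trans ?_ (hl z)
    unfold load
    rw [filter_image]
    exact card_image_le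

/-- From a winnable starting unit we get walls of load `≤ k` with at least `R k - C` classes. -/
theorem wall_of_P {R : ℚ} (hR : 0 ≤ R) {N : ℕ} (h : P R N 0 N 0) :
    ∃ C : ℚ, ∀ k T : ℕ, (T : ℚ) ≤ R * k - C → WallAt k 0 T := by
  obtain ⟨B, hB⟩ := h
  set K₀ : ℕ := B + N with hK₀
  refine ⟨R * K₀, fun k => ?_⟩
  induction k using Nat.strong_induction_on with
  | _ k ih =>
    intro T hT
    rcases lt_or_ge k K₀ with hk | hk
    · have h1 : (T : ℚ) ≤ 0 := by
        have : (k : ℚ) ≤ K₀ := by exact_mod_cast hk.le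
        nlinarith
      have h2 : T = 0 := by exact_mod_cast (le_antisymm h1 (by positivity))
      exact WallAt.triv (by omega)
    · have hG : Gad R k T := by
        intro t u hu hRu huk
        apply WallAt.shift
        rcases le_or_gt T t with hTt | hTt
        · rw [Nat.sub_eq_zero_of_le hTt]
          exact WallAt.triv le_rfl
        · apply ih (k - u) (by omega)
          rw [Nat.cast_sub hTt.le, Nat.cast_sub huk]
          linarith
      intro x y hxy
      obtain ⟨x₂, hx1, hx2⟩ := exists_between hxy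
      obtain ⟨x₄, hx3, hx4⟩ := exists_between hx2
      obtain ⟨F, hF, ht, hl⟩ := hB k T (by omega) hG x x₂ x₂ x₂ x₄ x₄ x₄ y hx1 le_rfl le_rfl hx3
        le_rfl le_rfl hx4
      have hFN : Fam F (0 + N) T x y := by simpa using hF
      refine ⟨cop 0 N x₂ x₄ ∪ F, group hFN hx1 hx3.le hx4 (by simpa using ht), ?_, fun z => ?_⟩
      · intro s hs hsT
        by_cases hsN : s ≤ N
        · exact ⟨(s, x₂, x₄), mem_union_left _ (mem_cop.2 ⟨⟨hs, by simpa using hsN⟩, rfl, rfl⟩), rfl⟩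
        · obtain ⟨J, c1, c2, _⟩ := ht s (by omega) hsT
          exact ⟨J, mem_union_right _ c1, c2⟩
      · have hun := load_union_le (cop 0 N x₂ x₄) F z
        have hc := load_cop_le 0 N x₂ x₄ z
        rcases hl z with h | ⟨h, h', h''⟩ | ⟨h, h', h''⟩ | ⟨h, h', h''⟩
        · omega
        · have := load_cop_out (t := 0) (a := N) (l := x₂) (r := x₄) (z := z) (Or.inl h')
          omega
        · omega
        · have := load_cop_out (t := 0) (a := N) (l := x₂) (r := x₄) (z := z) (Or.inr h)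
          omega

end Pool.Agent.Helper27.FFLow
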