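import Pool.Agent.Helper27.FFLow.Game

/-!
Lower bound for First-Fit on interval graphs, part 3: from walls to families of intervals indexed by `Fin n`.
-/

namespace Pool.Agent.Helper27.FFLow

open Finset

/-- A family read by colours (bottom up). -/
structure Col (G : Finset CI) (k : ℕ) : Prop where
  pos : ∀ J ∈ G, 1 ≤ J.1
  le : ∀ J ∈ G, J.2.1 ≤ J.2.2
  disj : ∀ J ∈ G, ∀ J' ∈ G, J ≠ J' → J.1 = J'.1 → J.2.2 < J'.2.1 ∨ J'.2.2 < J.2.1
  supp : ∀ J ∈ G, ∀ s, 1 ≤ s → s < J.1 → ∃ J' ∈ G, J'.1 = s ∧ J'.2.1 ≤ J.2.2 ∧ J.2.1 ≤ J'.2.2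
  ld : ∀ z, load G z ≤ k

lemma exists_col {k T : ℕ} (h : WallAt k 0 T) : ∃ G : Finset CI, Col G k ∧
    (∀ s, 1 ≤ s → s ≤ T → ∃ J ∈ G, J.1 = s) ∧ ∀ s, 1 ≤ s → s ≤ k → ((s, 2, 2) : CI) ∈ G := by
  obtain ⟨F, hF, ht, hl⟩ := h 0 1 one_pos
  set G₁ : Finset CI := (F.filter fun J => J.1 ≤ T).image fun J => (T + 1 - J.1, J.2) with hG₁
  have m1 : ∀ J, J ∈ G₁ ↔ ∃ J' ∈ F, J'.1 ≤ T ∧ (T + 1 - J'.1, J'.2) = J := by
    intro J
    rw [hG₁]
    simp only [mem_image, mem_filter, and_assoc]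
  refine ⟨G₁ ∪ cop 0 k 2 2, ⟨?_, ?_, ?_, ?_, ?_⟩, ?_, ?_⟩
  · intro J hJ
    rcases mem_union.1 hJ with h | h
    · obtain ⟨J', h1, h2, rfl⟩ := (m1 J).1 h
      simp only
      omega
    · have := (mem_cop.1 h).1.1
      omega
  · intro J hJ
    rcases mem_union.1 hJ with h | h
    · obtain ⟨J', h1, h2, rfl⟩ := (m1 J).1 h
      exact hF.le J' h1
    · rw [(mem_cop.1 h).2.1, (mem_cop.1 h).2.2]
  · intro J hJ K hK hne hc
    rcases mem_union.1 hJ with h | h <;> rcases mem_union.1 hK with h' | h'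
    · obtain ⟨J', h1, h2, rfl⟩ := (m1 J).1 h
      obtain ⟨K', h3, h4, rfl⟩ := (m1 K).1 h'
      have c1 := hF.cls J' h1
      have c2 := hF.cls K' h3
      refine hF.disj J' h1 K' h3 (fun he => hne (by rw [he])) ?_
      simp only at hc
      omega
    · obtain ⟨J', h1, h2, rfl⟩ := (m1 J).1 h
      left
      rw [(mem_cop.1 h').2.1]
      have := hF.hi J' h1
      simp only
      linarith
    · obtain ⟨K', h1, h2, rfl⟩ := (m1 K).1 h'
      right
      rw [(mem_cop.1 h).2.1]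
      have := hF.hi K' h1
      simp only
      linarith
    · exfalso
      apply hne
      obtain ⟨_, h1, h2⟩ := mem_cop.1 h
      obtain ⟨_, h3, h4⟩ := mem_cop.1 h'
      exact Prod.ext hc (Prod.ext (h1.trans h3.symm) (h2.trans h4.symm))
  · intro J hJ s hs hsJ
    rcases mem_union.1 hJ with h | h
    · obtain ⟨J', h1, h2, rfl⟩ := (m1 J).1 h
      have c1 := hF.cls J' h1
      simp only at hsJ
      obtain ⟨K, h3, h4, h5⟩ := hF.supp J' h1 (T + 1 - s) (by omega) (by omega)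
      refine ⟨(T + 1 - K.1, K.2), mem_union_left _ ((m1 _).2 ⟨K, h3, by omega, rfl⟩), ?_, h5⟩
      simp only
      omega
    · obtain ⟨h0, h1, h2⟩ := mem_cop.1 h
      refine ⟨(s, 2, 2), mem_union_right _ (mem_cop.2 ⟨⟨by omega, by omega⟩, rfl, rfl⟩), rfl, ?_, ?_⟩
      · simp only; linarith
      · simp only; linarith
  · intro z
    have hun := load_union_le G₁ (cop 0 k 2 2) z
    have h1 : load G₁ z ≤ load F z := by
      unfold load
      rw [hG₁, filter_image]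
      refine card_image_le.trans (card_le_card ?_)
      intro J hJ
      simp only [mem_filter] at hJ ⊢
      exact ⟨hJ.1.1, hJ.2⟩
    rcases lt_or_ge z 2 with hz | hz
    · have := load_cop_out (t := 0) (a := k) (l := 2) (r := 2) (z := z) (Or.inl hz)
      have := hl z
      omega
    · have := hF.load_right (z := z) (by linarith)
      have := load_cop_le 0 k 2 2 z
      omega
  · intro s hs hsT
    obtain ⟨K, h3, h4⟩ := ht (T + 1 - s) (by omega) (by omega)
    refine ⟨(T + 1 - K.1, K.2), mem_union_left _ ((m1 _).2 ⟨K, h3, by omega, rfl⟩), ?_⟩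
    simp only
    omega
  · intro s hs hsk
    exact mem_union_right _ (mem_cop.2 ⟨⟨by simp only; omega, by simp only; omega⟩, rfl, rfl⟩)

/-- Families of intervals indexed by `Fin n`. -/
lemma fin_of_col {G : Finset CI} {k : ℕ} (h : Col G k) :
    ∃ (n : ℕ) (a b : Fin n → ℝ) (col : Fin n → ℕ), (∀ i, a i ≤ b i) ∧ (∀ i, 1 ≤ col i) ∧
      (∀ i j, i ≠ j → a i ≤ b j → a j ≤ b i → col i ≠ col j) ∧
      (∀ i s, 1 ≤ s → s < col i → ∃ j, col j = s ∧ a j ≤ b i ∧ a i ≤ b j) ∧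
      (∀ (z : ℝ) (S : Finset (Fin n)), (∀ i ∈ S, a i ≤ z ∧ z ≤ b i) → S.card ≤ k) ∧
      (∀ J ∈ G, ∃ i, col i = J.1 ∧ a i = J.2.1 ∧ b i = J.2.2) := by
  classical
  set e := G.equivFin.symm with he
  refine ⟨G.card, fun i => (e i).1.2.1, fun i => (e i).1.2.2, fun i => (e i).1.1, ?_, ?_, ?_, ?_,
    ?_, ?_⟩
  · intro i
    exact h.le _ (e i).2
  · intro i
    exact h.pos _ (e i).2
  · intro i j hij h1 h2 h3
    rcases h.disj _ (e i).2 _ (e j).2 (fun heq => hij (e.injective (Subtype.ext heq))) h3 with h4 | h4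
    · linarith
    · linarith
  · intro i s hs hsi
    obtain ⟨J, hJ, h1, h2, h3⟩ := h.supp _ (e i).2 s hs hsi
    refine ⟨e.symm ⟨J, hJ⟩, ?_, ?_, ?_⟩ <;> simp only [Equiv.apply_symm_apply]
    · exact h1
    · exact h2
    · exact h3
  · intro z S hS
    refine le_trans ?_ (h.ld z)
    unfold load
    refine card_le_card_of_injOn (fun i => (e i).1) ?_ ?_
    · intro i hi
      simp only [coe_filter, Set.mem_ofPred_eq]
      exact ⟨(e i).2, hS i hi⟩
    · intro i _ j _ hij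
      exact e.injective (Subtype.ext hij)
  · intro J hJ
    refine ⟨e.symm ⟨J, hJ⟩, ?_, ?_, ?_⟩ <;> simp only [Equiv.apply_symm_apply]

end Pool.Agent.Helper27.FFLow
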