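import Pool.Agent.Helper27.FFLow.Basic

/-!
Lower bound for First-Fit on interval graphs, part 2: the strategy.
-/

namespace Pool.Agent.Helper27.FFLow

/-- rational version of the winnable units -/
def QP (R t p u q : ℚ) : Prop :=
  ∃ N : ℕ, 0 < N ∧ ∀ M : ℕ, 0 < M → N ∣ M → ∀ t' p' u' q' : ℕ, (t' : ℚ) = M * t →
    (p' : ℚ) = M * p → (u' : ℚ) = M * u → (q' : ℚ) = M * q → P R t' p' u' q'

lemma exists_nat_mul {a : ℚ} (ha : 0 ≤ a) {M : ℕ} (h : a.den ∣ M) : ∃ a' : ℕ, (a' : ℚ) = M * a := by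
  obtain ⟨c, rfl⟩ := h
  obtain ⟨n, hn⟩ := Int.eq_ofNat_of_zero_le (Rat.num_nonneg.2 ha)
  refine ⟨c * n, ?_⟩
  have h1 : (a.den : ℚ) * a = n := by
    have := Rat.den_mul_eq_num a
    rw [this, hn]
    simp
  push_cast
  rw [← h1]
  ring

lemma QP.step {R t p u q : ℚ} (a b : ℚ) (hu : 0 < u) (ha : 0 ≤ a) (hb : 0 ≤ b)
    (hR : R * u ≤ t + a + b) (hK : 0 < a → QP R (t + a) p (p + a) u)
    (hM : 0 < b → QP R (t + a + b) u (q + b) q) : QP R t p u q := by
  have hK' : ∃ N : ℕ, 0 < N ∧ (0 < a → ∀ M : ℕ, 0 < M → N ∣ M → ∀ t' p' u' q' : ℕ,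
      (t' : ℚ) = M * (t + a) → (p' : ℚ) = M * p → (u' : ℚ) = M * (p + a) → (q' : ℚ) = M * u →
      P R t' p' u' q') := by
    rcases ha.eq_or_lt with h | h
    · exact ⟨1, one_pos, fun h' => absurd h' (by rw [← h]; exact lt_irrefl _)⟩
    · obtain ⟨N, hN, hP⟩ := hK h
      exact ⟨N, hN, fun _ => hP⟩
  have hM' : ∃ N : ℕ, 0 < N ∧ (0 < b → ∀ M : ℕ, 0 < M → N ∣ M → ∀ t' p' u' q' : ℕ,
      (t' : ℚ) = M * (t + a + b) → (p' : ℚ) = M * u → (u' : ℚ) = M * (q + b) →
      (q' : ℚ) = M * q → P R t' p' u' q') := by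
    rcases hb.eq_or_lt with h | h
    · exact ⟨1, one_pos, fun h' => absurd h' (by rw [← h]; exact lt_irrefl _)⟩
    · obtain ⟨N, hN, hP⟩ := hM h
      exact ⟨N, hN, fun _ => hP⟩
  obtain ⟨N₁, hN₁, hP₁⟩ := hK'
  obtain ⟨N₂, hN₂, hP₂⟩ := hM'
  refine ⟨a.den * b.den * N₁ * N₂, by have := a.den_pos; have := b.den_pos; positivity, ?_⟩
  intro M hM0 hd t' p' u' q' ht' hp' hu' hq'
  have d1 : a.den ∣ M := dvd_trans ⟨b.den * N₁ * N₂, by ring⟩ hd
  have d2 : b.den ∣ M := dvd_trans ⟨a.den * N₁ * N₂, by ring⟩ hd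
  have d3 : N₁ ∣ M := dvd_trans ⟨a.den * b.den * N₂, by ring⟩ hd
  have d4 : N₂ ∣ M := dvd_trans ⟨a.den * b.den * N₁, by ring⟩ hd
  obtain ⟨a', ha'⟩ := exists_nat_mul ha d1
  obtain ⟨b', hb'⟩ := exists_nat_mul hb d2
  have hMq : (0 : ℚ) < M := by exact_mod_cast hM0
  refine P.step a' b' ?_ ?_ ?_ ?_
  · have : (0 : ℚ) < u' := by rw [hu']; positivity
    exact_mod_cast this
  · push_cast
    rw [hu', ht', ha', hb']
    nlinarith
  · intro ha0
    have : 0 < a := by
      by_contra hcon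
      have h0 : (0 : ℚ) < a' := by exact_mod_cast ha0
      rw [ha'] at h0
      nlinarith
    exact hP₁ this M hM0 d3 _ _ _ _ (by push_cast; rw [ht', ha']; ring) hp'
      (by push_cast; rw [hp', ha']; ring) hu'
  · intro hb0
    have : 0 < b := by
      by_contra hcon
      have h0 : (0 : ℚ) < b' := by exact_mod_cast hb0
      rw [hb'] at h0
      nlinarith
    exact hP₂ this M hM0 d4 _ _ _ _ (by push_cast; rw [ht', ha', hb']; ring) hu'
      (by push_cast; rw [hq', hb']; ring) hq'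

lemma QP.mirror {R t p u q : ℚ} (h : QP R t p u q) : QP R t q u p := by
  obtain ⟨N, hN, hP⟩ := h
  exact ⟨N, hN, fun M h1 h2 t' p' u' q' h3 h4 h5 h6 => (hP M h1 h2 t' q' u' p' h3 h6 h5 h4).mirror⟩

lemma QP.trunc {R t p u q : ℚ} (h : QP R t p u u) : QP R t p u q := by
  obtain ⟨N, hN, hP⟩ := h
  exact ⟨N, hN, fun M h1 h2 t' p' u' q' h3 h4 h5 _ => (hP M h1 h2 t' p' u' u' h3 h4 h5 h5).trunc⟩

lemma QP.retire {R t p u q : ℚ} (hu : 0 < u) (h : R * u ≤ t) : QP R t p u q :=
  QP.step 0 0 hu le_rfl le_rfl (by linarith) (fun h => absurd h (lt_irrefl _))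
    (fun h => absurd h (lt_irrefl _))

/-- All units with `p ≤ q ≤ u` and `t ≥ (1 + d) u + (3 - d) p + q` are winnable. -/
def All (R d : ℚ) : Prop :=
  ∀ t p q u : ℚ, 0 ≤ p → p ≤ q → q ≤ u → 0 < u → (1 + d) * u + (3 - d) * p + q ≤ t → QP R t p u q

/-- A server on the side of load `p` of a unit of load `u`: the best choice of `a`. -/
lemma server {R d : ℚ} (hd : 0 < d) (hA : All R d) {s p u : ℚ} (hp : 0 ≤ p) (hpu : p ≤ u)
    (hs : 5 * p ≤ s) :
    ∃ a, 0 ≤ a ∧ s - 4 * p - u ≤ d * a ∧ (0 < a → QP R (s + a) p (p + a) u) := by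
  by_cases h : u ≤ p + (s - 4 * p - u) / d
  · refine ⟨(s - 4 * p - u) / d, by linarith, ?_, fun ha => ?_⟩
    · rw [mul_div_cancel₀ _ hd.ne']
    · apply hA _ _ _ _ hp hpu h (by linarith)
      have h1 : d * ((s - 4 * p - u) / d) = s - 4 * p - u := mul_div_cancel₀ _ hd.ne'
      linarith
  · push Not at h
    set a₁ := (s - 4 * p - u) / d with ha₁
    have h1 : d * a₁ = s - 4 * p - u := mul_div_cancel₀ _ hd.ne'
    refine ⟨(s - 5 * p) / (1 + d), div_nonneg (by linarith) (by linarith), ?_, fun ha => ?_⟩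
    · set a₂ := (s - 5 * p) / (1 + d) with ha₂
      have h2 : (1 + d) * a₂ = s - 5 * p := mul_div_cancel₀ _ (by linarith)
      have h3 : a₁ ≤ a₂ := by
        by_contra hcon
        push Not at hcon
        nlinarith
      nlinarith
    · set a₂ := (s - 5 * p) / (1 + d) with ha₂
      have h2 : (1 + d) * a₂ = s - 5 * p := mul_div_cancel₀ _ (by linarith)
      apply QP.trunc
      apply hA _ _ _ _ hp (by linarith) le_rfl (by linarith)
      linarith

lemma all_four {R : ℚ} (hR : R ≤ 5) : All R 4 := by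
  intro t p q u hp hpq hqu hu ht
  apply QP.retire hu
  nlinarith

lemma all_step {R d η : ℚ} (hd : 1 / 4 ≤ d) (hη : 0 < η) (hη' : η ≤ 1)
    (hRη : R = 5 - 25 * η) (hA : All R d) : All R (d - η) := by
  intro t p q u hp hpq hqu hu ht
  have hd0 : 0 < d := by linarith
  have hup : 0 ≤ u - p := by linarith
  have hηup : η * (u - p) ≤ η * u := by nlinarith
  obtain ⟨a, ha, had, haK⟩ := server hd0 hA (s := t) (p := p) (u := u) hp (by linarith)
    (by nlinarith)
  by_cases h1 : R * u ≤ t + a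
  · exact QP.step a 0 hu ha le_rfl (by linarith) haK (fun h => absurd h (lt_irrefl _))
  · push Not at h1
    have key1 : 5 * d * q + (1 - d) ^ 2 * (q - p) + d * (2 + d) * (u - q)
        - (1 + d) * η * (u - p) ≤ d * (t + a) := by
      nlinarith
    have h5 : 5 * q ≤ t + a := by
      by_contra hcon
      push Not at hcon
      have e1 : d * (t + a) < d * (5 * q) := by nlinarith
      have e0 : 0 ≤ (1 - d) ^ 2 * (q - p) := by
        apply mul_nonneg (sq_nonneg _); linarith
      have e2 : d * (2 + d) * (u - q) < (1 + d) * η * u := by nlinarith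
      have e3 : d * (t + a) < d * (R * u) := by nlinarith
      have e4 : 25 * d * η * u < 5 * d * (u - q) - d * (2 + d) * (u - q) + (1 + d) * η * u := by
        rw [hRη] at e3
        nlinarith
      have hηu : 0 < η * u := by positivity
      rcases le_or_gt d 3 with h3 | h3
      · -- `(3 - d) * d * (u - q) * (2 + d) ≤ (3 - d) * (1 + d) * η * u`
        have e5 : (3 - d) * (d * (2 + d) * (u - q)) ≤ (3 - d) * ((1 + d) * η * u) :=
          mul_le_mul_of_nonneg_left e2.le (by linarith)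
        have e6 : (2 + d) * (25 * d * η * u) < (2 + d) * (5 * d * (u - q) - d * (2 + d) * (u - q)
            + (1 + d) * η * u) := by nlinarith
        have e7 : (2 + d) * (25 * d) * (η * u) < (3 - d) * (1 + d) * (η * u)
            + (2 + d) * (1 + d) * (η * u) := by nlinarith
        have e8 : ((2 + d) * (25 * d) - (3 - d) * (1 + d) - (2 + d) * (1 + d)) * (η * u) < 0 := by
          linarith
        have e9 : 0 ≤ (2 + d) * (25 * d) - (3 - d) * (1 + d) - (2 + d) * (1 + d) := by nlinarith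
        have := mul_nonneg e9 hηu.le
        linarith
      · have e5 : 0 ≤ (d - 3) * d * (u - q) := by
          apply mul_nonneg (mul_nonneg _ _) <;> linarith
        have e6 : 25 * d * (η * u) < (1 + d) * (η * u) := by nlinarith
        nlinarith
    obtain ⟨b, hb, hbd, hbM⟩ := server hd0 hA (s := t + a) (p := q) (u := u) (by linarith) hqu h5
    refine QP.step a b hu ha hb ?_ haK (fun h => (hbM h).mirror)
    have key2 : d ^ 2 * (5 - 25 * η) * u ≤ d ^ 2 * (t + a + b) := by
      have f1 : d * (t + a) - 4 * d * q - d * u ≤ d ^ 2 * b := by nlinarith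
      have f2 : (1 + d) * (5 * d * q + (1 - d) ^ 2 * (q - p) + d * (2 + d) * (u - q)
        - (1 + d) * η * (u - p)) ≤ (1 + d) * (d * (t + a)) :=
        mul_le_mul_of_nonneg_left key1 (by linarith)
      have f3 : 0 ≤ (1 - d) ^ 2 * (d * (u - p) + (q - p)) := by
        apply mul_nonneg (sq_nonneg _)
        have : 0 ≤ d * (u - p) := mul_nonneg hd0.le hup
        linarith
      have f4 : (1 + d) ^ 2 * (η * (u - p)) ≤ 25 * d ^ 2 * (η * u) := by
        have g1 : (1 + d) ^ 2 ≤ 25 * d ^ 2 := by nlinarith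
        have g2 : 0 ≤ η * (u - p) := by positivity
        have g3 : 0 ≤ d ^ 2 := sq_nonneg _
        calc (1 + d) ^ 2 * (η * (u - p)) ≤ 25 * d ^ 2 * (η * (u - p)) :=
              mul_le_mul_of_nonneg_right g1 g2
          _ ≤ 25 * d ^ 2 * (η * u) := mul_le_mul_of_nonneg_left hηup (by positivity)
      nlinarith
    rw [hRη]
    have hd2 : 0 < d ^ 2 := by positivity
    have : d ^ 2 * ((5 - 25 * η) * u) ≤ d ^ 2 * (t + a + b) := by linarith
    exact le_of_mul_le_mul_left this hd2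

lemma all_quarter {R : ℚ} (hR : 4 ≤ R) (hR' : R < 5) : All R (1 / 4) := by
  set η : ℚ := (5 - R) / 25 with hη
  have hη0 : 0 < η := by rw [hη]; linarith
  have hη1 : η ≤ 1 := by rw [hη]; linarith
  have hRη : R = 5 - 25 * η := by rw [hη]; ring
  have key : ∀ n : ℕ, (∀ j : ℕ, j < n → 1 / 4 ≤ 4 - j * η) → All R (4 - n * η) := by
    intro n
    induction n with
    | zero => intro _; simpa using all_four hR'.le
    | succ n ih =>
      intro h
      have h1 := ih (fun j hj => h j (by omega))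
      have h2 := all_step (h n (by omega)) hη0 hη1
        hRη h1
      have h3 : 4 - ((n + 1 : ℕ) : ℚ) * η = 4 - n * η - η := by push_cast; ring
      rw [h3]
      exact h2
  obtain ⟨m, hm⟩ := exists_nat_gt (15 / 4 / η)
  have hex : ∃ n : ℕ, 4 - (n : ℚ) * η ≤ 1 / 4 := ⟨m, by
    rw [div_lt_iff₀ hη0] at hm
    linarith⟩
  classical
  have h1 := key (Nat.find hex) (fun j hj => by
    have := Nat.find_min hex hj
    push Not at this
    exact this.le)
  have h2 := Nat.find_spec hex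
  intro t p q u hp hpq hqu hu ht
  refine h1 t p q u hp hpq hqu hu (le_trans ?_ ht)
  nlinarith

/-- The starting unit is winnable for every `R < 5`. -/
theorem start {R : ℚ} (hR : 4 ≤ R) (hR' : R < 5) : QP R 1 0 1 0 := by
  have hA := all_quarter hR hR'
  refine QP.step (4 / 5) (16 / 5) one_pos (by norm_num) (by norm_num) (by linarith) ?_ ?_
  · intro _
    apply QP.trunc
    apply hA <;> norm_num
  · intro _
    apply QP.mirror
    apply hA <;> norm_num

/-- For every `R < 5` there are walls of load `≤ k` with at least `R k - C` classes. -/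
theorem walls {R : ℚ} (hR : 4 ≤ R) (hR' : R < 5) :
    ∃ C : ℚ, ∀ k T : ℕ, (T : ℚ) ≤ R * k - C → WallAt k 0 T := by
  obtain ⟨N, hN, hP⟩ := start hR hR'
  exact wall_of_P (by linarith) (hP N hN dvd_rfl N 0 N 0 (by ring) (by simp) (by ring) (by simp))

end Pool.Agent.Helper27.FFLow
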