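import Pool.Agent.Helper27.FFLow.Families

/-!
Lower bound for First-Fit on interval graphs, part 3: from walls to interval graphs and First-Fit.
-/

namespace Pool.Agent.Helper27.FFLow

open Finset

/-- `G` is an interval graph: its vertices can be identified with a family of closed intervals
`[a v, b v]` of the line, two distinct vertices being adjacent exactly when their intervals
intersect. -/
def IsIntervalGraph {V : Type} (G : SimpleGraph V) : Prop :=
  ∃ a b : V → ℝ, (∀ v, a v ≤ b v) ∧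
    ∀ u v, G.Adj u v ↔ u ≠ v ∧ (Set.Icc (a u) (b u) ∩ Set.Icc (a v) (b v)).Nonempty

/-- The First-Fit colour of the `i`-th vertex `e i` for the vertex ordering
`e 0, e 1, …, e (n-1)`: the least positive integer not already used on a neighbour of `e i`
among `e j`, `j < i`. -/
noncomputable def firstFit {n : ℕ} (G : SimpleGraph (Fin n)) (e : Equiv.Perm (Fin n))
    (i : Fin n) : ℕ :=
  sInf {c : ℕ | 1 ≤ c ∧ ∀ j : Fin n, ∀ _h : j < i, G.Adj (e j) (e i) → firstFit G e j ≠ c}
termination_by i.val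
decreasing_by exact _h

/-- `χ_FF(G)`: the largest number of colours First-Fit uses on `G`, over all orderings. -/
noncomputable def chiFF {n : ℕ} (G : SimpleGraph (Fin n)) : ℕ :=
  univ.sup fun e : Equiv.Perm (Fin n) => (univ.image (firstFit G e)).card

/-- `f(k)`: the maximum of `χ_FF(G)` over all interval graphs with clique number `k`. -/
noncomputable def f (k : ℕ) : ℕ :=
  sSup {m : ℕ | ∃ (n : ℕ) (G : SimpleGraph (Fin n)),
    IsIntervalGraph G ∧ G.cliqueNum = k ∧ chiFF G = m}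

section graph

variable {n : ℕ} {a b : Fin n → ℝ} {col : Fin n → ℕ}

/-- the intersection graph -/
def ig (a b : Fin n → ℝ) : SimpleGraph (Fin n) where
  Adj u v := u ≠ v ∧ (Set.Icc (a u) (b u) ∩ Set.Icc (a v) (b v)).Nonempty
  symm := ⟨fun _ _ h => ⟨h.1.symm, by rw [Set.inter_comm]; exact h.2⟩⟩
  loopless := ⟨fun _ h => h.1 rfl⟩

lemma ig_adj (hab : ∀ i, a i ≤ b i) {u v : Fin n} :
    (ig a b).Adj u v ↔ u ≠ v ∧ a u ≤ b v ∧ a v ≤ b u := by
  constructor
  · rintro ⟨h, x, ⟨h1, h2⟩, ⟨h3, h4⟩⟩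
    exact ⟨h, h1.trans h4, h3.trans h2⟩
  · rintro ⟨h, h1, h2⟩
    refine ⟨h, max (a u) (a v), ⟨le_max_left _ _, max_le (hab u) h2⟩,
      ⟨le_max_right _ _, max_le h1 (hab v)⟩⟩

lemma ig_interval (hab : ∀ i, a i ≤ b i) : IsIntervalGraph (ig a b) :=
  ⟨a, b, hab, fun _ _ => Iff.rfl⟩

lemma ff_ig (hab : ∀ i, a i ≤ b i) (hpos : ∀ i, 1 ≤ col i)
    (hdis : ∀ i j, i ≠ j → a i ≤ b j → a j ≤ b i → col i ≠ col j)
    (hsup : ∀ i s, 1 ≤ s → s < col i → ∃ j, col j = s ∧ a j ≤ b i ∧ a i ≤ b j)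
    (i : Fin n) : firstFit (ig a b) (Tuple.sort col) i = col (Tuple.sort col i) := by
  set e := Tuple.sort col with he
  have hmono : Monotone (col ∘ e) := Tuple.monotone_sort col
  have key : ∀ m : ℕ, ∀ i : Fin n, i.val = m → firstFit (ig a b) e i = col (e i) := by
    intro m
    induction m using Nat.strong_induction_on with
    | _ m ih =>
      intro i him
      have ih' : ∀ j : Fin n, j < i → firstFit (ig a b) e j = col (e j) := by
        intro j hj
        exact ih j.val (by rw [← him]; exact hj) j rfl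
      rw [firstFit]
      apply le_antisymm
      · apply Nat.sInf_le
        refine ⟨hpos _, fun j hj hadj => ?_⟩
        rw [ih' j hj]
        obtain ⟨h1, h2, h3⟩ := (ig_adj hab).1 hadj
        exact hdis _ _ h1 h2 h3
      · apply le_csInf
        · refine ⟨col (e i), hpos _, fun j hj hadj => ?_⟩
          rw [ih' j hj]
          obtain ⟨h1, h2, h3⟩ := (ig_adj hab).1 hadj
          exact hdis _ _ h1 h2 h3
        · rintro c ⟨hc1, hc2⟩
          by_contra hcon
          push Not at hcon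
          obtain ⟨v, hv1, hv2, hv3⟩ := hsup (e i) c hc1 hcon
          have hji : e.symm v < i := by
            by_contra hge
            push Not at hge
            have := hmono hge
            simp only [Function.comp_apply, Equiv.apply_symm_apply] at this
            omega
          refine hc2 (e.symm v) hji ?_ ?_
          · rw [Equiv.apply_symm_apply]
            refine (ig_adj hab).2 ⟨fun h => ?_, hv2, hv3⟩
            rw [← h] at hcon
            omega
          · rw [ih' _ hji, Equiv.apply_symm_apply, hv1]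
  exact key i.val i rfl

lemma le_chiFF_ig (hab : ∀ i, a i ≤ b i) (hpos : ∀ i, 1 ≤ col i)
    (hdis : ∀ i j, i ≠ j → a i ≤ b j → a j ≤ b i → col i ≠ col j)
    (hsup : ∀ i s, 1 ≤ s → s < col i → ∃ j, col j = s ∧ a j ≤ b i ∧ a i ≤ b j)
    {T : ℕ} (hT : ∀ s, 1 ≤ s → s ≤ T → ∃ i, col i = s) : T ≤ chiFF (ig a b) := by
  unfold chiFF
  refine le_trans ?_ (le_sup (f := fun e : Equiv.Perm (Fin n) =>
    (univ.image (firstFit (ig a b) e)).card) (mem_univ (Tuple.sort col)))
  have : Icc 1 T ⊆ univ.image (firstFit (ig a b) (Tuple.sort col)) := by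
    intro s hs
    rw [mem_Icc] at hs
    obtain ⟨i, hi⟩ := hT s hs.1 hs.2
    refine mem_image.2 ⟨(Tuple.sort col).symm i, mem_univ _, ?_⟩
    rw [ff_ig hab hpos hdis hsup, Equiv.apply_symm_apply, hi]
  calc T = (Icc 1 T).card := by simp
    _ ≤ _ := card_le_card this

lemma cliqueNum_ig_le (hab : ∀ i, a i ≤ b i) {k : ℕ}
    (hld : ∀ (z : ℝ) (S : Finset (Fin n)), (∀ i ∈ S, a i ≤ z ∧ z ≤ b i) → S.card ≤ k) :
    (ig a b).cliqueNum ≤ k := by
  obtain ⟨S, hS⟩ := (ig a b).exists_isNClique_cliqueNum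
  rw [← hS.card_eq]
  rcases S.eq_empty_or_nonempty with h | h
  · subst h; simp
  · obtain ⟨j, hj, hmax⟩ := S.exists_max_image a h
    refine hld (a j) S fun i hi => ⟨hmax i hi, ?_⟩
    rcases eq_or_ne j i with hji | hji
    · rw [← hji]; exact hab j
    · exact ((ig_adj hab).1 (hS.isClique hj hi hji)).2.1

lemma le_cliqueNum_ig (hab : ∀ i, a i ≤ b i) {k : ℕ} {z : ℝ}
    (h : ∀ s, 1 ≤ s → s ≤ k → ∃ i, col i = s ∧ a i = z ∧ b i = z) :
    k ≤ (ig a b).cliqueNum := by
  classical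
  have hS : (ig a b).IsClique (univ.filter fun i => a i = z ∧ b i = z : Finset (Fin n)) := by
    intro i hi j hj hij
    simp only [coe_filter, mem_univ, true_and, Set.mem_ofPred_eq] at hi hj
    refine (ig_adj hab).2 ⟨hij, ?_, ?_⟩
    · rw [hi.1, hj.2]
    · rw [hj.1, hi.2]
  refine le_trans ?_ hS.card_le_cliqueNum
  calc k = (Icc 1 k).card := by simp
    _ ≤ ((univ.filter fun i => a i = z ∧ b i = z : Finset (Fin n)).image col).card := by
      apply card_le_card
      intro s hs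
      rw [mem_Icc] at hs
      obtain ⟨i, h1, h2, h3⟩ := h s hs.1 hs.2
      exact mem_image.2 ⟨i, mem_filter.2 ⟨mem_univ _, h2, h3⟩, h1⟩
    _ ≤ _ := card_image_le

end graph

/-- For every `R < 5` there is `C` such that for every `k` some interval graph with clique number
exactly `k` has First-Fit chromatic number at least `R k - C`. -/
theorem lower_graph {R : ℝ} (hR : R < 5) : ∃ C : ℝ, ∀ k : ℕ, ∃ (n : ℕ) (G : SimpleGraph (Fin n)),
    IsIntervalGraph G ∧ G.cliqueNum = k ∧ R * k - C ≤ chiFF G := by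
  obtain ⟨R', hR1, hR2⟩ := exists_rat_btwn (max_lt hR (by norm_num : (4 : ℝ) < 5))
  have h4 : (4 : ℚ) ≤ R' := by
    have : (4 : ℝ) < R' := (le_max_right _ _).trans_lt hR1
    exact_mod_cast this.le
  have h5 : R' < 5 := by exact_mod_cast hR2
  obtain ⟨C, hC⟩ := walls h4 h5
  refine ⟨C + 1, fun k => ?_⟩
  set T : ℕ := ⌊(R' : ℚ) * k - C⌋₊ with hT
  rcases le_or_gt 0 (R' * (k : ℚ) - C) with h0 | h0
  · have hT1 : (T : ℚ) ≤ R' * k - C := Nat.floor_le h0
    have hT2 : R' * (k : ℚ) - C < T + 1 := Nat.lt_floor_add_one _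
    obtain ⟨G, hG, hs, hk⟩ := exists_col (hC k T hT1)
    obtain ⟨n, a, b, col, hab, hpos, hdis, hsup, hld, hall⟩ := fin_of_col hG
    refine ⟨n, ig a b, ig_interval hab, le_antisymm (cliqueNum_ig_le hab hld)
      (le_cliqueNum_ig (col := col) hab (z := 2) fun s h1 h2 => hall _ (hk s h1 h2)), ?_⟩
    have h1 : T ≤ chiFF (ig a b) := le_chiFF_ig hab hpos hdis hsup (fun s h1 h2 => by
      obtain ⟨J, hJ, hJs⟩ := hs s h1 h2
      obtain ⟨i, hi, _⟩ := hall J hJ
      exact ⟨i, hi.trans hJs⟩)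
    have h2 : ((R' * (k : ℚ) - C : ℚ) : ℝ) < ((T + 1 : ℚ) : ℝ) := by exact_mod_cast hT2
    push_cast at h2
    have h3 : R * k ≤ R' * k := by
      have : R ≤ R' := (le_max_left _ _).trans hR1.le
      exact mul_le_mul_of_nonneg_right this (by positivity)
    have h4 : (T : ℝ) ≤ chiFF (ig a b) := by exact_mod_cast h1
    linarith
  · obtain ⟨G, hG, hs, hk⟩ := exists_col (WallAt.triv (k := k) (t := 0) (T := 0) le_rfl)
    obtain ⟨n, a, b, col, hab, hpos, hdis, hsup, hld, hall⟩ := fin_of_col hG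
    refine ⟨n, ig a b, ig_interval hab, le_antisymm (cliqueNum_ig_le hab hld)
      (le_cliqueNum_ig (col := col) hab (z := 2) fun s h1 h2 => hall _ (hk s h1 h2)), ?_⟩
    have h2 : ((R' * (k : ℚ) - C : ℚ) : ℝ) < ((0 : ℚ) : ℝ) := by exact_mod_cast h0
    push_cast at h2
    have h3 : R * k ≤ R' * k := by
      have : R ≤ R' := (le_max_left _ _).trans hR1.le
      exact mul_le_mul_of_nonneg_right this (by positivity)
    have h4 : (0 : ℝ) ≤ chiFF (ig a b) := by positivity
    linarith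

/-- Lower bound for `f`. -/
theorem lower_f (hB : ∀ k : ℕ, BddAbove {m : ℕ | ∃ (n : ℕ) (G : SimpleGraph (Fin n)),
      IsIntervalGraph G ∧ G.cliqueNum = k ∧ chiFF G = m}) {R : ℝ} (hR : R < 5) :
    ∃ C : ℝ, ∀ k : ℕ, R * k - C ≤ f k := by
  obtain ⟨C, hC⟩ := lower_graph hR
  refine ⟨C, fun k => ?_⟩
  obtain ⟨n, G, h1, h2, h3⟩ := hC k
  refine h3.trans ?_
  exact_mod_cast le_csSup (hB k) ⟨n, G, h1, h2, rfl⟩

/-- The final statement, given the upper bound `χ_FF ≤ 5 ω`. -/
theorem final (upper : ∀ (n : ℕ) (G : SimpleGraph (Fin n)), IsIntervalGraph G →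
      chiFF G ≤ 5 * G.cliqueNum) :
    (∀ k : ℕ, BddAbove {m : ℕ | ∃ (n : ℕ) (G : SimpleGraph (Fin n)),
      IsIntervalGraph G ∧ G.cliqueNum = k ∧ chiFF G = m}) ∧
    (∀ k : ℕ, f k ≤ 5 * k) ∧
    (∀ R : ℝ, R < 5 → ∃ C : ℝ, ∀ k : ℕ, R * k - C ≤ f k) ∧
    Filter.Tendsto (fun k : ℕ => (f k : ℝ) / k) Filter.atTop (nhds 5) ∧
    Filter.limsup (fun k : ℕ => (f k : ℝ) / k) Filter.atTop = 5 := by
  have hB : ∀ k : ℕ, BddAbove {m : ℕ | ∃ (n : ℕ) (G : SimpleGraph (Fin n)),
      IsIntervalGraph G ∧ G.cliqueNum = k ∧ chiFF G = m} := by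
    intro k
    refine ⟨5 * k, ?_⟩
    rintro m ⟨n, G, hG, hk, rfl⟩
    rw [← hk]
    exact upper n G hG
  have hU : ∀ k : ℕ, f k ≤ 5 * k := by
    intro k
    unfold f
    apply csSup_le'
    rintro m ⟨n, G, hG, hk, rfl⟩
    rw [← hk]
    exact upper n G hG
  have hL : ∀ R : ℝ, R < 5 → ∃ C : ℝ, ∀ k : ℕ, R * k - C ≤ f k := fun R hR => lower_f hB hR
  have hT : Filter.Tendsto (fun k : ℕ => (f k : ℝ) / k) Filter.atTop (nhds 5) := by
    rw [tendsto_order]
    refine ⟨fun R hR => ?_, fun R hR => ?_⟩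
    · obtain ⟨R', h1, h2⟩ := exists_between hR
      obtain ⟨C, hC⟩ := hL R' h2
      obtain ⟨m, hm⟩ := exists_nat_gt (C / (R' - R))
      filter_upwards [Filter.eventually_ge_atTop (max m 1)] with k hk
      have hk1 : (1 : ℝ) ≤ k := by exact_mod_cast (le_max_right _ _).trans hk
      have hk2 : (m : ℝ) ≤ k := by exact_mod_cast (le_max_left _ _).trans hk
      rw [lt_div_iff₀ (by linarith)]
      have h3 := hC k
      have h4 : C < (R' - R) * k := by
        rw [div_lt_iff₀ (by linarith)] at hm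
        nlinarith
      nlinarith
    · filter_upwards [Filter.eventually_ge_atTop 1] with k hk
      have hk1 : (1 : ℝ) ≤ k := by exact_mod_cast hk
      rw [div_lt_iff₀ (by linarith)]
      have h3 : (f k : ℝ) ≤ 5 * k := by exact_mod_cast hU k
      nlinarith
  exact ⟨hB, hU, hL, hT, hT.limsup_eq⟩

end Pool.Agent.Helper27.FFLow
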